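import Pool.Agent.Sep.Final

/-!
# MP_ce56ef_an: the dichotomy separated / concentrated fails in ZFC

There is a nonseparable Banach space `X` (over `ℝ` and over `ℂ`) whose unit sphere has no uncountable
`(1+)`-separated subset, but has an uncountable subset `A` without an uncountable
`(1-)`-concentrated subset.  In fact every uncountable subset of the unit sphere has two distinct
points at distance less than `1`, and every uncountable subset of `A` has two points at distance at
least `6 / 5`.  This answers Q1 and Q2 in the negative.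

Idea: `Γ = ω₁`, `x a ∈ 2^ω` distinct, `e_a` the indicator of the branch `A_a` of `2^(<ω)` given by `x a`.
Call `{a, b}` bad if the lexicographic order of a coherent sequence of finite-to-one functions
(a Countryman line) disagrees with the well order on `{a, b}`.  The norm is the maximum of
`|f|_∞ + sup_s w_s |f s|` and of the functionals
`(1/2) (lim_(A_a) f - lim_(A_b) f + (1/2) (f s - f t))`, `{a, b}` bad, `s`, `t` the first nodes in
which the branches differ; `X` is the closed span of the `e_a`.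
-/

namespace Pool.Agent.Results.MP_ce56ef_an.NoDichotomy

/-- `Y` is `(1+)`-separated. -/
def OnePlusSeparated {X : Type} [NormedAddCommGroup X] (Y : Set X) : Prop :=
  ∀ x ∈ Y, ∀ y ∈ Y, x ≠ y → 1 < ‖x - y‖

/-- `Y` is `(1-)`-concentrated. -/
def OneMinusConcentrated {X : Type} [NormedAddCommGroup X] (Y : Set X) : Prop :=
  ∀ x ∈ Y, ∀ y ∈ Y, x ≠ y → ‖x - y‖ < 1

theorem result (𝕜 : Type) [RCLike 𝕜] :
    ∃ (X : Type) (_ : NormedAddCommGroup X) (_ : NormedSpace 𝕜 X),
      CompleteSpace X ∧ ¬ TopologicalSpace.SeparableSpace X ∧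
      -- alternative (a) fails
      (¬ ∃ Y ⊆ Metric.sphere (0 : X) 1, ¬ Y.Countable ∧ OnePlusSeparated Y) ∧
      -- alternative (b) fails
      (¬ ∀ A ⊆ Metric.sphere (0 : X) 1, ¬ A.Countable →
        ∃ C ⊆ A, ¬ C.Countable ∧ OneMinusConcentrated C) ∧
      -- stronger forms of both
      (∀ Y ⊆ Metric.sphere (0 : X) 1, ¬ Y.Countable → ∃ x ∈ Y, ∃ y ∈ Y, x ≠ y ∧ ‖x - y‖ < 1) ∧
      ∃ A ⊆ Metric.sphere (0 : X) 1, ¬ A.Countable ∧
        ∀ C ⊆ A, ¬ C.Countable → ∃ x ∈ C, ∃ y ∈ C, 6 / 5 ≤ ‖x - y‖ := by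
  obtain ⟨X, i1, i2, h1, h2, h3, A, hA, hA', h4⟩ := Pool.Agent.Sep.main 𝕜
  refine ⟨X, i1, i2, h1, h2, ?_, ?_, h3, A, hA, hA', h4⟩
  · rintro ⟨Y, hY, hY', hs⟩
    obtain ⟨x, hx, y, hy, hne, hlt⟩ := h3 Y hY hY'
    exact absurd (hs x hx y hy hne) (not_lt.2 hlt.le)
  · intro hcon
    obtain ⟨C, hC, hC', hs⟩ := hcon A hA hA'
    obtain ⟨x, hx, y, hy, hle⟩ := h4 C hC hC'
    have hne : x ≠ y := by
      rintro rfl
      rw [sub_self, norm_zero] at hle
      norm_num at hle
    have := hs x hx y hy hne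
    linarith

end Pool.Agent.Results.MP_ce56ef_an.NoDichotomy
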